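import Pool.Agent.Work.MP_f714fc_ag.Tw.Ample
import Pool.Agent.Work.MP_f714fc_ag.Geo.YSect
import Pool.Agent.Work.MP_f714fc_ag.Geo.CocDefs

/-!
# MP_f714fc_ag: ampleness of H = C_inf + f, and of the anticanonical bundle 2 C_inf if t is a unit
-/

open CategoryTheory Limits TopologicalSpace AlgebraicGeometry Opposite Abelian

attribute [-instance] CategoryTheory.catToReflQuiver

namespace Fdim

open Coc

namespace YCharts

variable {A : CommRingCat.{0}} {t : A} {X : Scheme.{0}} {π : X ⟶ Spec A} (Y : YCharts A t π)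

include Y in
theorem compactSpace : CompactSpace X := by
  refine ⟨?_⟩
  have h : (Set.univ : Set X) = ⋃ i, (Y.U i : Set X) := by
    rw [← Opens.coe_iSup, Y.cover]
    rfl
  rw [h]
  exact isCompact_iUnion fun i => (Y.aff i).isCompact

/-- the twists by the multiples of H = C_inf + f are ample -/
theorem ample_H [QuasiSeparatedSpace X] (T : ℤ → (Coh X ⥤ Coh X))
    (hT : ∀ n A, Nonempty (((T n).obj A).obj ≅ (tw ((Y.gC * Y.gF) ^ n)).obj A.obj)) :
    IsAmpleTwist (Coh.O X) T := by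
  have := Y.compactSpace
  have : IsCov Y.U := ⟨Y.cover⟩
  exact isAmpleTwist (fun j : Fin 4 => (⟨Y.sH j, Y.isSec_sH j⟩ : Sct (Y.gC * Y.gF)))
    (fun j => Y.ampleData_H.2.1 j) Y.ampleData_H.2.2 T hT

/-- the anticanonical bundle is ample if t is a unit -/
theorem ample_2C [QuasiSeparatedSpace X] (ht : IsUnit t) (T : ℤ → (Coh X ⥤ Coh X))
    (hT : ∀ n A, Nonempty (((T n).obj A).obj ≅ (tw ((Y.gC ^ 2) ^ n)).obj A.obj)) :
    IsAmpleTwist (Coh.O X) T := by
  have := Y.compactSpace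
  have : IsCov Y.U := ⟨Y.cover⟩
  exact isAmpleTwist (fun j : Fin 4 => (⟨Y.sA j, Y.isSec_sA j⟩ : Sct (Y.gC ^ 2)))
    (fun j => Y.isAffineOpen_sA j) (Y.ampleData_C ht).2.2 T hT

end YCharts

end Fdim
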