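import Pool.Agent.Work.MP_f714fc_ag.Tw.CohDiv
import Pool.Agent.Work.MP_f714fc_ag.Geo.YSect

/-!
# The curves on the surfaces `Y(A, t)`: the curve at infinity, and the curve `{p = q = 0}` for
`t = 0`
-/

open CategoryTheory Limits TopologicalSpace AlgebraicGeometry Opposite

attribute [-instance] CategoryTheory.catToReflQuiver

namespace Fdim

open Coc

variable {A : CommRingCat.{0}} {t : A} {X : Scheme.{0}} {π : X ⟶ Spec A}

namespace YCharts

variable (Y : YCharts A t π)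

instance isCovU : IsCov Y.U := ⟨Y.cover⟩

/-- the coordinates of the charts are not zero -/
theorem y_ne_zero [Nontrivial A] (i : Fin 4) : Y.y i ≠ 0 := by
  intro h
  have h1 : MvPolynomial.eval₂Hom (str π (Y.U i)) ![Y.x i, Y.y i] (MvPolynomial.X 1) =
      MvPolynomial.eval₂Hom (str π (Y.U i)) ![Y.x i, Y.y i] 0 := by
    simpa using h
  exact MvPolynomial.X_ne_zero (R := A) (1 : Fin 2) ((Y.bij i).1 h1)

theorem one_ne_zero' [Nontrivial A] (i : Fin 4) : (1 : Γ(X, Y.U i)) ≠ 0 := fun h =>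
  Y.y_ne_zero i (by rw [← one_mul (Y.y i), h, zero_mul])

theorem at_gg (n m : ℤ) : at' Y.gg ((n, m) : ℤ × ℤ) = Y.gC ^ n * Y.gF ^ m := rfl

/-- the sequence of a section of a cocycle with nonzero components -/
theorem divisor_O [IsIntegral X] [IsLocallyNoetherian X] {g : Coc Y.U} (s : Sct g)
    (hs : ∀ i, s.c i ≠ 0) :
    ∃ S : ShortComplex (Coh X), S.ShortExact ∧
      Nonempty (S.X₁ ≅ (twCoh (g ^ (-1 : ℤ))).obj (Coh.O X)) ∧ Nonempty (S.X₂ ≅ Coh.O X) ∧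
      ∀ i (W : X.Opens) (hi : W ≤ Y.U i) (m : Γ(S.X₃.obj, W)), rO hi (s.c i) • m = 0 :=
  divisorCoh s (Coh.O X) (fun i _ hi m hm => rO_smul_eq_zero hi (hs i) m hm)

/-- The sequence `0 → O(-C) → O → O_C → 0` of the curve `C = {p = q = 0}` (`t = 0`), which is
linearly equivalent to `C_inf - 2f` and disjoint from `C_inf`. -/
theorem exists_curve0 [IsIntegral X] [IsLocallyNoetherian X] [Nontrivial A] (ht : t = 0) :
    ∃ S : ShortComplex (Coh X), S.ShortExact ∧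
      Nonempty (S.X₁ ≅ (twCoh (at' Y.gg ((-1, 2) : ℤ × ℤ))).obj (Coh.O X)) ∧
      Nonempty (S.X₂ ≅ Coh.O X) ∧
      Nonempty ((twCoh (at' Y.gg ((1, 0) : ℤ × ℤ))).obj S.X₃ ≅ S.X₃) := by
  obtain ⟨s, h0, h1, h2, h3⟩ := Y.exists_s0 ht
  obtain ⟨S, hS, e₁, e₂, hk⟩ := Y.divisor_O s (fun i => by
    fin_cases i
    · exact fun h => Y.y_ne_zero 0 (h0.symm.trans h)
    · exact fun h => Y.one_ne_zero' 1 (h1.symm.trans h)
    · exact fun h => Y.y_ne_zero 2 (h2.symm.trans h)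
    · exact fun h => Y.one_ne_zero' 3 (h3.symm.trans h))
  have e : (Y.gC * Y.gF ^ (-2 : ℤ)) ^ (-1 : ℤ) = at' Y.gg ((-1, 2) : ℤ × ℤ) := by
    rw [at_gg, mul_zpow, ← zpow_mul]
    rfl
  refine ⟨S, hS, e ▸ e₁, e₂, ?_⟩
  have z1 : ∀ (W : X.Opens) (_ : W ≤ Y.U 1) (m : Γ(S.X₃.obj, W)), m = 0 := by
    intro W hW m
    have h := hk 1 W hW m
    rwa [h1, map_one, one_smul] at h
  have z3 : ∀ (W : X.Opens) (_ : W ≤ Y.U 3) (m : Γ(S.X₃.obj, W)), m = 0 := by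
    intro W hW m
    have h := hk 3 W hW m
    rwa [h3, map_one, one_smul] at h
  have e' : at' Y.gg ((1, 0) : ℤ × ℤ) = Y.gC := by
    rw [at_gg, zpow_one, zpow_zero, mul_one]
  rw [e']
  obtain ⟨i1⟩ := twCoh_congr (g := Y.gC) (h := 1) S.X₃ (by
    intro i j W hi hj m
    rw [v_one, one_smul]
    have hz : ∀ k : Fin 4, (k = 1 ∨ k = 3) → W ≤ Y.U k → Y.gC.v i j hi hj • m = m := by
      rintro k (rfl | rfl) hk'
      · rw [z1 W hk' m, smul_zero]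
      · rw [z3 W hk' m, smul_zero]
    match i, j with
    | 0, 0 => rw [v_self, one_smul]
    | 0, 1 => exact hz 1 (Or.inl rfl) hj
    | 0, 2 => rw [gC_02, one_smul]
    | 0, 3 => exact hz 3 (Or.inr rfl) hj
    | 1, _ => exact hz 1 (Or.inl rfl) hi
    | 2, 0 =>
      have h := Y.gC.v_swap 0 2 hj hi
      rw [gC_02, one_mul] at h
      rw [h, one_smul]
    | 2, 1 => exact hz 1 (Or.inl rfl) hj
    | 2, 2 => rw [v_self, one_smul]
    | 2, 3 => exact hz 3 (Or.inr rfl) hj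
    | 3, _ => exact hz 3 (Or.inr rfl) hi)
  exact ⟨i1 ≪≫ ((oneCoh rfl).app S.X₃).symm⟩

/-- The sequence `0 → O(-C_inf) → O → O_(C_inf) → 0` of the curve at infinity; `C_inf` restricted
to itself is linearly equivalent to `2f`. -/
theorem exists_curveInf [IsIntegral X] [IsLocallyNoetherian X] [Nontrivial A] :
    ∃ S : ShortComplex (Coh X), S.ShortExact ∧
      Nonempty (S.X₁ ≅ (twCoh (at' Y.gg ((-1, 0) : ℤ × ℤ))).obj (Coh.O X)) ∧
      Nonempty (S.X₂ ≅ Coh.O X) ∧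
      Nonempty ((twCoh (at' Y.gg ((1, 0) : ℤ × ℤ))).obj S.X₃ ≅
        (twCoh (at' Y.gg ((0, 2) : ℤ × ℤ))).obj S.X₃) := by
  obtain ⟨s, h0, h1, h2, h3⟩ := Y.exists_sC
  obtain ⟨S, hS, e₁, e₂, hk⟩ := Y.divisor_O s (fun i => by
    fin_cases i
    · exact fun h => Y.one_ne_zero' 0 (h0.symm.trans h)
    · exact fun h => Y.y_ne_zero 1 (h1.symm.trans h)
    · exact fun h => Y.one_ne_zero' 2 (h2.symm.trans h)
    · exact fun h => Y.y_ne_zero 3 (h3.symm.trans h))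
  have e : Y.gC ^ (-1 : ℤ) = at' Y.gg ((-1, 0) : ℤ × ℤ) := by
    rw [at_gg, zpow_zero, mul_one]
  refine ⟨S, hS, e ▸ e₁, e₂, ?_⟩
  have z0 : ∀ (W : X.Opens) (_ : W ≤ Y.U 0) (m : Γ(S.X₃.obj, W)), m = 0 := by
    intro W hW m
    have h := hk 0 W hW m
    rwa [h0, map_one, one_smul] at h
  have z2 : ∀ (W : X.Opens) (_ : W ≤ Y.U 2) (m : Γ(S.X₃.obj, W)), m = 0 := by
    intro W hW m
    have h := hk 2 W hW m
    rwa [h2, map_one, one_smul] at h
  apply twCoh_congr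
  intro i j W hi hj m
  have hz : ∀ (k : Fin 4) (a b : Γ(X, W)), (k = 0 ∨ k = 2) → W ≤ Y.U k → a • m = b • m := by
    rintro k a b (rfl | rfl) hk'
    · rw [z0 W hk' m, smul_zero, smul_zero]
    · rw [z2 W hk' m, smul_zero, smul_zero]
  have h13 : ∀ (hi : W ≤ Y.U 1) (hj : W ≤ Y.U 3),
      (at' Y.gg ((1, 0) : ℤ × ℤ)).v 1 3 hi hj • m =
        (at' Y.gg ((0, 2) : ℤ × ℤ)).v 1 3 hi hj • m := by
    intro hi hj
    have e2 : Y.gF ^ (2 : ℤ) = Y.gF * Y.gF := by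
      rw [zpow_ofNat, pow_two]
    have hy : rO hi (Y.y 1) • m = 0 := by
      rw [← h1]
      exact hk 1 W hi m
    rw [at_gg, at_gg, zpow_one, zpow_zero, mul_one, zpow_zero, one_mul, e2, v_mul, gC_13, gF_13,
      map_mul, map_add, map_mul, mul_add, add_smul, ← mul_assoc, mul_smul _ (rO hi (Y.y 1)), hy,
      smul_zero, add_zero]
  match i, j with
  | 0, _ => exact hz 0 _ _ (Or.inl rfl) hi
  | 2, _ => exact hz 2 _ _ (Or.inr rfl) hi
  | 1, 0 => exact hz 0 _ _ (Or.inl rfl) hj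
  | 3, 0 => exact hz 0 _ _ (Or.inl rfl) hj
  | 1, 2 => exact hz 2 _ _ (Or.inr rfl) hj
  | 3, 2 => exact hz 2 _ _ (Or.inr rfl) hj
  | 1, 1 => rw [v_self, v_self]
  | 3, 3 => rw [v_self, v_self]
  | 1, 3 => exact h13 hi hj
  | 3, 1 =>
    have s1 := (at' Y.gg ((1, 0) : ℤ × ℤ)).v_swap 3 1 hi hj
    have s2 := (at' Y.gg ((0, 2) : ℤ × ℤ)).v_swap 1 3 hj hi
    have h := congrArg (fun x => ((at' Y.gg ((1, 0) : ℤ × ℤ)).v 3 1 hi hj *
      (at' Y.gg ((0, 2) : ℤ × ℤ)).v 3 1 hi hj) • x) (h13 hj hi)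
    simp only [← mul_smul] at h
    rw [mul_right_comm, s1, one_mul, mul_assoc, mul_comm _ (Coc.v _ 1 3 _ _), s2, mul_one] at h
    exact h.symm

end YCharts

end Fdim
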