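import Pool.Agent.Work.MP_f714fc_ag.Yc.Cat
import Pool.Agent.Work.MP_f714fc_ag.Yc.Amp
import Pool.Agent.Work.MP_f714fc_ag.Yc.Sph
import Pool.Agent.Work.MP_f714fc_ag.Abs.YSphere
import Pool.Agent.Work.MP_f714fc_ag.Geo.FamGlue

/-!
# MP_f714fc_ag: the surface Y_t is Fano for t /= 0 (canonical bundle -2 C_inf), and Y_0 carries a
sphere-like sheaf
-/

open CategoryTheory Limits TopologicalSpace AlgebraicGeometry Opposite Abelian

attribute [-instance] CategoryTheory.catToReflQuiver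

namespace Fdim

open Coc

namespace YCharts

variable {c : ℂ} {X : Scheme.{0}} [X.Over SpecC] (Y : YCharts (.of ℂ) c (X ↘ SpecC))
  [IsIntegral X] [IsLocallyNoetherian X]

include Y

/-- the canonical bundle of Y_c is -2 C_inf -/
theorem isSerreTwist : letI := Y.isCov
    IsSerreTwist.{1} ℂ 2 (twCoh (X := X) (Y.gC ^ (-2 : ℤ))) := by
  have hcov := Y.isCov
  let i1 := Y.shiftCoh
  have hcadd : ∀ a : ℤ × ℤ, (shiftFunctor (Coh X) a).Additive := Y.shiftCoh_additive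
  have hclin : ∀ a : ℤ × ℤ, (shiftFunctor (Coh X) a).Linear ℂ := Y.shiftCoh_linear
  obtain ⟨Z, hZ⟩ := Y.exists_cat
  have h := YCat.serre Z
  have e : at' Y.gg (-2, 0) = Y.gC ^ (-2 : ℤ) := by
    rw [gg_apply, zpow_zero, mul_one]
  rw [← e]
  exact h

theorem fano (hc : c ≠ 0) : ∃ ω : LineBundle X, ω.IsCanonical 2 ∧ ω.InvAmple := by
  have hcov := Y.isCov
  refine ⟨⟨Fin 4, Y.U, Y.cover, Y.gC ^ (-2 : ℤ)⟩, Y.isSerreTwist, ?_⟩
  refine Y.ample_2C (IsUnit.mk0 c hc) _ (fun n A => ⟨Y.twEq ?_ A.obj⟩)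
  rw [← zpow_mul, ← zpow_natCast, ← zpow_mul]
  congr 1
  simp

omit Y in
/-- a sphere-like sheaf on Y_0: the structure sheaf of the curve with self-intersection -2 -/
theorem sphere_like (Y : YCharts (.of ℂ) (0 : ℂ) (X ↘ SpecC)) :
    ∃ M : Coh X, Module.finrank ℂ (M ⟶ M) = 1 ∧ Subsingleton (Ext M M 1) ∧
      Nontrivial (Ext M M 2) := by
  have hcov := Y.isCov
  let i1 := Y.shiftCoh
  have hcadd : ∀ a : ℤ × ℤ, (shiftFunctor (Coh X) a).Additive := Y.shiftCoh_additive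
  have hclin : ∀ a : ℤ × ℤ, (shiftFunctor (Coh X) a).Linear ℂ := Y.shiftCoh_linear
  obtain ⟨Z, hZ⟩ := Y.exists_cat
  have hnt : Nontrivial (CommRingCat.of ℂ) := inferInstanceAs (Nontrivial ℂ)
  obtain ⟨S, hS, ⟨e₁⟩, ⟨e₂⟩, ⟨e₃⟩⟩ := Y.exists_curve0 rfl
  have h := Z.sphere S hS (by rw [hZ]; exact e₁) (by rw [hZ]; exact e₂) e₃
  refine ⟨S.X₃, ?_, h.2.1, ?_⟩
  · rw [← h.1]
    exact ((Ext.linearEquiv₀ (R := ℂ) (X := S.X₃) (Y := S.X₃)).finrank_eq).symm
  · have h3 := h.2.2.1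
    exact Module.nontrivial_of_finrank_pos (R := ℂ) (by rw [h3]; exact one_pos)

end YCharts

/-- **the family of surfaces** -/
theorem exists_family' : ∃ F : Family, (∀ c : ℂ, c ≠ 0 → (F.fiber c).IsFanoCoc 2) ∧
      ∃ M : Coh (F.fiber 0).X, Module.finrank ℂ (M ⟶ M) = 1 ∧ Subsingleton (Ext M M 1) ∧
        Nontrivial (Ext M M 2) := by
  refine exists_family_of ?_ ?_
  · intro X _ _ hX c hc Y
    have := hX.integral
    exact Y.fano hc
  · intro X _ _ hX Y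
    have := hX.integral
    exact YCharts.sphere_like Y

end Fdim
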