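import Pool.Agent.Work.MP_f714fc_ag.Tw.TwShift
import Pool.Agent.Work.MP_f714fc_ag.Tw.Congr
import Pool.Agent.Work.MP_f714fc_ag.Tw.Koszul
import Pool.Agent.Work.MP_f714fc_ag.Tw.Divisor
import Pool.Agent.Work.MP_f714fc_ag.Geo.YSect
import Pool.Agent.Work.MP_f714fc_ag.Geo.YLine
import Pool.Agent.Work.MP_f714fc_ag.Coh.Unit
import Pool.Agent.Work.MP_f714fc_ag.Abs.YCat
import Pool.Agent.Work.MP_f714fc_ag.Abs.YShift

/-!
# MP_f714fc_ag: the surface Y(A, t) satisfies the axioms of YBase in the category of sheaves of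
modules
-/

open CategoryTheory Limits TopologicalSpace AlgebraicGeometry Opposite Abelian

attribute [-instance] CategoryTheory.catToReflQuiver

universe u w

namespace Fdim

open Coc

namespace YCharts

variable {A : CommRingCat.{0}} {t : A} {X : Scheme.{0}} {π : X ⟶ Spec A} (Y : YCharts A t π)

theorem isCov : IsCov Y.U := ⟨Y.cover⟩

theorem gg_apply (n m : ℤ) : at' Y.gg (n, m) = Y.gC ^ n * Y.gF ^ m := rfl

/-- the shift of sheaves of modules by the line bundles O(n C_inf + m f) -/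
@[implicit_reducible]
noncomputable def shiftMod : HasShift X.Modules (ℤ × ℤ) :=
  haveI := Y.isCov
  hasShift Y.gg

/-- sheaves killed by the ideal of C_inf: O(C_inf) acts as O(2f) -/
theorem congr_gC {s : Sct Y.gC} (h0 : s.c 0 = 1) (h1 : s.c 1 = Y.y 1) (h2 : s.c 2 = 1)
    (h3 : s.c 3 = Y.y 3) (M : X.Modules)
    (H : ∀ i (W : X.Opens) (hi : W ≤ Y.U i) (m : Γ(M, W)), rO hi (s.c i) • m = 0)
    (i j : Fin 4) (W : X.Opens) (hi : W ≤ Y.U i) (hj : W ≤ Y.U j) (m : Γ(M, W)) :
    Y.gC.v i j hi hj • m = (Y.gF ^ (2 : ℤ)).v i j hi hj • m := by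
  have hz : ∀ i, (i = 0 ∨ i = 2) → ∀ (_ : W ≤ Y.U i), m = 0 := by
    rintro i (rfl | rfl) hi
    · have := H 0 W hi m
      rwa [h0, map_one, one_smul] at this
    · have := H 2 W hi m
      rwa [h2, map_one, one_smul] at this
  by_cases hi' : i = 0 ∨ i = 2
  · rw [hz i hi' hi, smul_zero, smul_zero]
  by_cases hj' : j = 0 ∨ j = 2
  · rw [hz j hj' hj, smul_zero, smul_zero]
  have e2 : (Y.gF ^ (2 : ℤ)).v i j hi hj = Y.gF.v i j hi hj * Y.gF.v i j hi hj := by
    rw [zpow_ofNat, pow_two, Coc.v_mul]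
  rw [e2, Y.gC_v, Y.gF_v]
  have hk : ∀ (i : Fin 4) (hi : W ≤ Y.U i) (r : Γ(X, W)) (a b : Γ(X, W)),
      a = b + r * rO hi (s.c i) → a • m = b • m := by
    intro i hi r a b hab
    rw [hab, add_smul, mul_smul, H i W hi m, smul_zero, add_zero]
  match i, j with
  | 0, _ => exact absurd (Or.inl rfl) hi'
  | 2, _ => exact absurd (Or.inr rfl) hi'
  | 1, 0 => exact absurd (Or.inl rfl) hj'
  | 1, 2 => exact absurd (Or.inr rfl) hj'
  | 3, 0 => exact absurd (Or.inl rfl) hj'
  | 3, 2 => exact absurd (Or.inr rfl) hj'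
  | 1, 1 => simp [eC, eF]
  | 3, 3 => simp [eC, eF]
  | 1, 3 =>
    refine hk 1 hi (str π W t * rO hi (Y.x 1)) _ _ ?_
    rw [h1]
    simp [eC, eF]
    ring
  | 3, 1 =>
    refine hk 3 hi (-(str π W t * rO hi (Y.x 3))) _ _ ?_
    rw [h3]
    simp [eC, eF]
    ring

/-- a nonzero function is a nonzerodivisor on the structure sheaf of an integral scheme -/
theorem regular_of_ne [IsIntegral X] {V W : X.Opens} (h : W ≤ V) (r : Γ(X, V))
    (hr : Nontrivial Γ(X, V) → r ≠ 0) (m : Γ(X, W)) (hm : rO h r * m = 0) : m = 0 := by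
  by_cases hW : Nonempty W
  · have : Nonempty V := ⟨⟨hW.some.1, h hW.some.2⟩⟩
    have hd : IsDomain Γ(X, W) := inferInstance
    have hd' : IsDomain Γ(X, V) := inferInstance
    have hinj : Function.Injective (rO h) := map_injective_of_isIntegral X (homOfLE h)
    rcases mul_eq_zero.1 hm with h1 | h1
    · exact absurd (hinj (h1.trans (map_zero _).symm)) (hr inferInstance)
    · exact h1
  · have : W = ⊥ := by
      ext x
      simp only [SetLike.mem_coe, Opens.coe_bot, Set.mem_empty_iff_false, iff_false]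
      exact fun hx => hW ⟨⟨x, hx⟩⟩
    subst this
    exact Subsingleton.elim _ _

theorem y_ne (i : Fin 4) (h : Nontrivial Γ(X, Y.U i)) : Y.y i ≠ 0 := by
  intro h0
  have hn : Nontrivial (MvPolynomial (Fin 2) A) := by
    by_contra hn
    rw [not_nontrivial_iff_subsingleton] at hn
    exact not_subsingleton _ ((Y.bij i).2.subsingleton)
  have hA : Nontrivial A := by
    by_contra hA
    rw [not_nontrivial_iff_subsingleton] at hA
    exact not_subsingleton (MvPolynomial (Fin 2) A) inferInstance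
  have h1 : MvPolynomial.eval₂Hom (str π (Y.U i)) ![Y.x i, Y.y i] (MvPolynomial.X 1) = 0 := by
    simp [h0]
  have h2 := (Y.bij i).1 (h1.trans (map_zero _).symm)
  exact MvPolynomial.X_ne_zero 1 h2

/-- the components of the section of C_inf are nonzerodivisors on the structure sheaf -/
theorem sC_regular [IsIntegral X] {s : Sct Y.gC} (h0 : s.c 0 = 1) (h1 : s.c 1 = Y.y 1)
    (h2 : s.c 2 = 1) (h3 : s.c 3 = Y.y 3) (i : Fin 4) (W : X.Opens) (hi : W ≤ Y.U i)
    (m : Γ(Coh.OX X, W)) (hm : rO hi (s.c i) • m = 0) : m = 0 := by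
  refine regular_of_ne hi (s.c i) (fun hn => ?_) m hm
  match i with
  | 0 => rw [h0]; exact one_ne_zero
  | 1 => rw [h1]; exact Y.y_ne 1 hn
  | 2 => rw [h2]; exact one_ne_zero
  | 3 => rw [h3]; exact Y.y_ne 3 hn

/-- changing the cocycle by an equality -/
noncomputable def twEq {g h : Coc Y.U} (e : g = h) (M : X.Modules) :
    (tw g).obj M ≅ (tw h).obj M := eqToIso (by rw [e])

section base

variable [HasExt.{w} X.Modules] [IsIntegral X]

theorem exists_base : letI := Y.shiftMod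
    ∃ (_ : ∀ a : ℤ × ℤ, (shiftFunctor X.Modules a).Additive), ∃ B : YBase.{w} X.Modules,
      B.O = Coh.OX X := by
  let := Y.shiftMod
  have hadd : ∀ a : ℤ × ℤ, (shiftFunctor X.Modules a).Additive := fun a =>
    inferInstanceAs (tw (at' Y.gg a)).Additive
  refine ⟨hadd, ?_⟩
  have hsh : ∀ (n m : ℤ) (M : X.Modules), M⟦(n, m)⟧ = (tw (Y.gC ^ n * Y.gF ^ m)).obj M :=
    fun n m M => rfl
  obtain ⟨sC, c0, c1, c2, c3⟩ := Y.exists_sC
  obtain ⟨⟨s, s0, s1, s2, s3⟩, u, u0, u1, u2, u3⟩ := Y.exists_sF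
  obtain ⟨K, hK, ⟨k1⟩, ⟨k2⟩, ⟨k3⟩⟩ := Coc.koszul Y.cover s u (by
    intro i
    match i with
    | 0 => left; rw [s0]; exact isUnit_one
    | 1 => left; rw [s1]; exact isUnit_one
    | 2 => right; rw [u2]; exact isUnit_one
    | 3 => right; rw [u3]; exact isUnit_one) (Coh.OX X)
  obtain ⟨D, hD, ⟨d1⟩, ⟨d2⟩, hkill⟩ := Coc.divisor Y.cover sC (Coh.OX X)
    (fun i W hi m hm => Y.sC_regular c0 c1 c2 c3 i W hi m hm)
  obtain ⟨e⟩ := Coc.tw_congr D.X₃ (Y.congr_gC c0 c1 c2 c3 D.X₃ hkill)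
  refine ⟨{ O := Coh.OX X
            hO := fun p hp => Y.sub_K1 p hp
            hF := fun p => subsingleton_iso (Iso.refl _)
              (Y.twEq (by rw [gg_apply, zpow_zero, one_mul, zpow_neg_one]) _) (Y.sub_K3 p)
            hC := fun m p => subsingleton_iso (Iso.refl _)
              (Y.twEq (by rw [gg_apply, zpow_neg_one]) _) (Y.sub_K2 m p)
            K := K
            hK := hK
            eK₁ := k1 ≪≫ Y.twEq (by rw [gg_apply, zpow_zero, one_mul]) _
            eK₂ := k2 ≪≫ biprod.mapIso (Y.twEq (by rw [gg_apply, zpow_zero, one_mul]) _)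
              (Y.twEq (by rw [gg_apply, zpow_zero, one_mul]) _)
            eK₃ := k3
            D := D
            hD := hD
            eD₁ := d1 ≪≫ Y.twEq (by rw [gg_apply, zpow_zero, mul_one]) _
            eD₂ := d2
            eD₃ := Y.twEq (by rw [gg_apply, zpow_one, zpow_zero, mul_one]) _ ≪≫ e ≪≫
              Y.twEq (by rw [gg_apply, zpow_zero, one_mul]) _ }, rfl⟩

end base

end YCharts

end Fdim
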