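import Pool.Agent.Work.MP_f714fc_ag.Yc.Base
import Pool.Agent.Work.MP_f714fc_ag.Yc.Amp
import Pool.Agent.Work.MP_f714fc_ag.Abs.YGen
import Pool.Agent.Work.MP_f714fc_ag.Abs.YTransfer
import Pool.Agent.Work.MP_f714fc_ag.Abs.YSerre
import Pool.Agent.Work.MP_f714fc_ag.Geo.CohLin2
import Pool.Agent.Work.MP_f714fc_ag.Geo.YGood
import Pool.Agent.Work.MP_f714fc_ag.Coh.YVan

/-!
# MP_f714fc_ag: the category of coherent sheaves on the surface Y(C, t) is a YCat
-/

open CategoryTheory Limits TopologicalSpace AlgebraicGeometry Opposite Abelian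

attribute [-instance] CategoryTheory.catToReflQuiver

namespace Fdim

open Coc

/-- Ext groups of sheaves of modules -/
noncomputable instance modHasExt (X : Scheme.{0}) : HasExt.{1} X.Modules :=
  HasExt.standard X.Modules

/-- the composition of graded morphisms for the shift by a group of cocycles -/
theorem comp_homG {X : Scheme.{0}} {ι : Type} {U : ι → X.Opens} [IsCov U] {G : Type*}
    [AddCommMonoid G] (φ : Multiplicative G →* Coc U) {A B D : Coh X} {a b p : G}
    (f : @ShiftedHom (Coh X) _ G _ (hasShiftCoh φ) A B a)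
    (f' : @ShiftedHom (Coh X) _ G _ (hasShiftCoh φ) B D b) (h : b + a = p) :
    (@ShiftedHom.comp (Coh X) _ G _ (hasShiftCoh φ) A B D a b p f f' h).hom =
      InducedCategory.Hom.hom f ≫ (tw (at' φ a)).map (InducedCategory.Hom.hom f') ≫
        mulHom ((at_add φ b a).trans (congrArg (at' φ) h)) D.obj := by
  rw [← shiftFunctorCohAdd'_inv_app_hom φ b a p h D]
  rfl

namespace YCharts

variable {c : ℂ} {X : Scheme.{0}} [X.Over SpecC] (Y : YCharts (.of ℂ) c (X ↘ SpecC))
  [IsIntegral X] [IsLocallyNoetherian X]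

/-- the shift of coherent sheaves by the line bundles O(n C_inf + m f) -/
@[implicit_reducible]
noncomputable def shiftCoh : HasShift (Coh X) (ℤ × ℤ) :=
  haveI := Y.isCov
  hasShiftCoh Y.gg

omit [IsIntegral X] in
theorem shiftCoh_additive (a : ℤ × ℤ) : letI := Y.shiftCoh
    (shiftFunctor (Coh X) a).Additive :=
  haveI := Y.isCov
  shiftFunctorCoh_additive Y.gg a

omit [IsIntegral X] in
theorem shiftCoh_linear (a : ℤ × ℤ) : letI := Y.shiftCoh
    (shiftFunctor (Coh X) a).Linear ℂ :=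
  haveI := Y.isCov
  shiftFunctorCoh_linear (isLin ℂ X) Y.gg a


omit [X.Over SpecC] [IsIntegral X] [IsLocallyNoetherian X] in
theorem isCoh_of_iso {M N : X.Modules} (e : M ≅ N) (hM : IsCoh X M) : IsCoh X N :=
  (IsCoh X).prop_of_iso e hM

/-- the transfer from sheaves of modules to coherent sheaves -/
theorem exists_transfer : letI := Y.shiftCoh; letI := Y.shiftMod
    haveI : ∀ a : ℤ × ℤ, (shiftFunctor (Coh X) a).Additive := Y.shiftCoh_additive
    ∃ (_ : ∀ a : ℤ × ℤ, (shiftFunctor X.Modules a).Additive) (B : YBase.{1} X.Modules)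
      (T : Transfer B (IsCoh X).ι), T.O = Coh.O X := by
  let i1 := Y.shiftCoh
  let i2 := Y.shiftMod
  have hcadd : ∀ a : ℤ × ℤ, (shiftFunctor (Coh X) a).Additive := Y.shiftCoh_additive
  obtain ⟨hadd, B, hB⟩ := Y.exists_base
  have hcov := Y.isCov
  have hO : IsCoh X B.O := by
    rw [hB]
    exact (Coh.O X).property
  have hD2 : IsCoh X B.D.X₂ := isCoh_of_iso B.eD₂.symm hO
  have hD1 : IsCoh X B.D.X₁ := isCoh_of_iso B.eD₁.symm (isCoh_tw' (at' Y.gg (-1, 0)) hO)
  have hD3 : IsCoh X B.D.X₃ :=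
    (IsCoh X).prop_of_isColimit_cokernelCofork (hk := B.hD.gIsCokernel) hD1 hD2
  refine ⟨hadd, B, ⟨Coh.O X, eqToIso hB.symm, fun a C => ⟨Iso.refl _⟩, ⟨B.D.X₃, hD3⟩, Iso.refl _,
    ?_, ?_, ?_⟩, rfl⟩
  · refine (genLarge_of_gg (O := Coh.O X) ?_).gen
    exact Y.ample_H (fun n => shiftFunctor (Coh X) (n, n)) (fun n A => ⟨Y.twEq (by
      rw [gg_apply, mul_zpow]) A.obj⟩)
  · intro F p hp
    have hq : F.obj.IsQuasicoherent := F.property.1
    rw [hB]
    exact (Y.hvan_three F.obj hp).subsingleton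
  · refine ⟨6, fun F G p hp => ?_⟩
    exact Y.subsingleton_ext F.property G.property hp

omit [IsLocallyNoetherian X] in
include Y in
/-- global functions are constant -/
theorem finrank_homO : Module.finrank ℂ (Coh.O X ⟶ Coh.O X) = 1 := by
  apply finrank_eq_one (𝟙 (Coh.O X))
  · intro h
    have h1 : (𝟙 (OO X) : OO X ⟶ OO X) = 0 := congrArg (fun f : Coh.O X ⟶ Coh.O X => f.hom) h
    have h2 : (1 : Γ(X, (⊤ : X.Opens))) = 0 :=
      congrArg (fun f : OO X ⟶ OO X => (ap f ⊤ (1 : Γ(X, ⊤)) : Γ(X, ⊤))) h1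
    have hn : Nonempty (⊤ : X.Opens) := ⟨⟨Nonempty.some inferInstance, trivial⟩⟩
    exact one_ne_zero h2
  · intro f
    let g : OO X ⟶ OO X := f.hom
    obtain ⟨a, ha⟩ := Y.K0.2 (ap g ⊤ (1 : Γ(X, ⊤)) : Γ(X, ⊤))
    refine ⟨a, ?_⟩
    apply (IsCoh X).hom_ext
    have ha' : scal ℂ X a = (ap g ⊤ (1 : Γ(X, ⊤)) : Γ(X, ⊤)) := by
      rw [← ha, str, RingHom.comp_apply, rO_self]
      rfl
    have key : a • (𝟙 (OO X) : OO X ⟶ OO X) = g := by
      apply hom_ext'
      intro V s
      rw [ap_linear, ap_OO g V s, ha']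
      exact mul_comm (rO (le_top : V ≤ ⊤) (ap g ⊤ (1 : Γ(X, ⊤)) : Γ(X, ⊤)) : Γ(X, V)) s
    exact key

/-- the category of coherent sheaves on Y_c -/
theorem exists_cat : letI := Y.shiftCoh
    haveI : ∀ a : ℤ × ℤ, (shiftFunctor (Coh X) a).Additive := Y.shiftCoh_additive
    haveI : ∀ a : ℤ × ℤ, (shiftFunctor (Coh X) a).Linear ℂ := Y.shiftCoh_linear
    ∃ Z : YCat.{1} ℂ (Coh X), Z.O = Coh.O X := by
  let i1 := Y.shiftCoh
  let i2 := Y.shiftMod
  have hcadd : ∀ a : ℤ × ℤ, (shiftFunctor (Coh X) a).Additive := Y.shiftCoh_additive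
  have hclin : ∀ a : ℤ × ℤ, (shiftFunctor (Coh X) a).Linear ℂ := Y.shiftCoh_linear
  have hcov := Y.isCov
  obtain ⟨hadd, B, ⟨O, eO, sh, E, eE, gen, hbd, bd⟩, hT⟩ := Y.exists_transfer
  change O = Coh.O X at hT
  subst hT
  let T : Transfer B (IsCoh X).ι := ⟨Coh.O X, eO, sh, E, eE, gen, hbd, bd⟩
  refine ⟨{ toYBase := T.base
            homO := Y.finrank_homO
            act := fun a A =>
              { toFun := fun s => actCoh (g := at' Y.gg a) s A
                map_add' := fun s t => actCoh_add (g := at' Y.gg a) s t A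
                map_smul' := fun r s => actCoh_smul (isLin ℂ X) (g := at' Y.gg a) r s A }
            act_O := fun a s => actCoh_O (g := at' Y.gg a) s
            central := fun {A B a b c} f s h h' => (IsCoh X).hom_ext (by
              refine (comp_homG Y.gg f _ h).trans (Eq.trans ?_ (comp_homG Y.gg _ f h').symm)
              exact mulSec_central (g := at' Y.gg a) (h := at' Y.gg b) (k := at' Y.gg c) _ _ _ _)
            gen := T.gen
            van := T.van
            hbd := T.hbd'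
            bd := T.bd' }, rfl⟩

end YCharts

end Fdim
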