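import Pool.Agent.Work.MP_f714fc_ag.Sch.Charts
import Pool.Agent.Work.MP_f714fc_ag.Tw.TwSec
import Pool.Agent.Work.MP_f714fc_ag.Tw.AmpleExt

/-!
MP_f714fc_ag, sheaf theory on Y_c.  Tasks 1: cocycles and their sections on the charts of
Y(A, t), congruent cocycles, Koszul sequence, divisor sequence.  Nobody imports this file; every
owner proves the verbatim statements in the file named in the comment.
-/

open CategoryTheory Limits TopologicalSpace AlgebraicGeometry Opposite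

attribute [-instance] CategoryTheory.catToReflQuiver

universe u

namespace Fdim

open Coc

/-! ## File Yc/CocMk.lean (owner helper78): cocycles from data on ordered pairs -/

section

variable {X : Scheme.{0}} {n : ℕ} {U : Fin n → X.Opens}

/-- C1: a cocycle from its values on the pairs i < j -/
noncomputable def Coc.ofLt (u : ∀ i j : Fin n, (Γ(X, U i ⊓ U j))ˣ)
    (h : ∀ i j k : Fin n, i < j → j < k →
      rO (inf_le_left : U i ⊓ U j ⊓ U k ≤ U i ⊓ U j) (u i j : Γ(X, U i ⊓ U j)) *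
        rO (inf_le_inf_right (U k) inf_le_right : U i ⊓ U j ⊓ U k ≤ U j ⊓ U k)
          (u j k : Γ(X, U j ⊓ U k)) =
        rO (inf_le_inf_right (U k) inf_le_left : U i ⊓ U j ⊓ U k ≤ U i ⊓ U k)
          (u i k : Γ(X, U i ⊓ U k))) : Coc U := sorry

theorem Coc.ofLt_v (u : ∀ i j : Fin n, (Γ(X, U i ⊓ U j))ˣ)
    (h : ∀ i j k : Fin n, i < j → j < k →
      rO (inf_le_left : U i ⊓ U j ⊓ U k ≤ U i ⊓ U j) (u i j : Γ(X, U i ⊓ U j)) *
        rO (inf_le_inf_right (U k) inf_le_right : U i ⊓ U j ⊓ U k ≤ U j ⊓ U k)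
          (u j k : Γ(X, U j ⊓ U k)) =
        rO (inf_le_inf_right (U k) inf_le_left : U i ⊓ U j ⊓ U k ≤ U i ⊓ U k)
          (u i k : Γ(X, U i ⊓ U k))) (i j : Fin n) (hij : i < j) {W : X.Opens} (hi : W ≤ U i)
    (hj : W ≤ U j) : (Coc.ofLt u h).v i j hi hj = rO (le_inf hi hj) (u i j : Γ(X, U i ⊓ U j)) :=
  sorry

end

/-! ## Sections of a cocycle are Sct g (file Tw/AmpleExt.lean, helper16): components c i in
Gamma(X, U i), locus, pow.  File Tw/SctMul.lean (owner helper78) -/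

section

variable {X : Scheme.{u}} {ι : Type u} {U : ι → X.Opens}

/-- the product of sections -/
noncomputable def Coc.Sct.mul {g h : Coc U} (σ : Sct g) (τ : Sct h) : Sct (g * h) where
  c i := σ.c i * τ.c i
  comp i j W hi hj := by
    rw [map_mul, map_mul, σ.comp i j W hi hj, τ.comp i j W hi hj, Coc.v_mul]
    ring

/-- C0: the global section of the twist of the structure sheaf given by a family -/
theorem Coc.Sct.exists_sec {g : Coc U} (σ : Sct g) :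
    ∃ s : Γ((Coc.tw g).obj (Coc.OO X), (⊤ : X.Opens)), ∀ (i : ι) (W : X.Opens) (hi : W ≤ U i),
      Coc.sv s i le_top hi = rO hi (σ.c i) := sorry

end

/-! ## File Yc/Coc.lean (owner helper78): the cocycles of C_inf and f -/

section

variable {A : CommRingCat.{0}} {t : A} {X : Scheme.{0}} {π : X ⟶ Spec A} (Y : YCharts A t π)

namespace YCharts

/-- C2: the cocycle of C_inf; local generators 1, p, 1, q -/
noncomputable def gC : Coc Y.U := sorry

theorem gC_01 {W : X.Opens} (h0 : W ≤ Y.U 0) (h1 : W ≤ Y.U 1) :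
    Y.gC.v 0 1 h0 h1 = rO h0 (Y.y 0) := sorry
theorem gC_02 {W : X.Opens} (h0 : W ≤ Y.U 0) (h2 : W ≤ Y.U 2) :
    Y.gC.v 0 2 h0 h2 = 1 := sorry
theorem gC_03 {W : X.Opens} (h0 : W ≤ Y.U 0) (h3 : W ≤ Y.U 3) :
    Y.gC.v 0 3 h0 h3 = rO h0 (Y.x 0 ^ 2 * Y.y 0 + str π _ t * Y.x 0) := sorry
theorem gC_12 {W : X.Opens} (h1 : W ≤ Y.U 1) (h2 : W ≤ Y.U 2) :
    Y.gC.v 1 2 h1 h2 = rO h1 (Y.y 1) := sorry
theorem gC_13 {W : X.Opens} (h1 : W ≤ Y.U 1) (h3 : W ≤ Y.U 3) :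
    Y.gC.v 1 3 h1 h3 = rO h1 (Y.x 1 * (Y.x 1 + str π _ t * Y.y 1)) := sorry
theorem gC_23 {W : X.Opens} (h2 : W ≤ Y.U 2) (h3 : W ≤ Y.U 3) :
    Y.gC.v 2 3 h2 h3 = rO h2 (Y.y 2) := sorry

/-- C3: the cocycle of the fibre f = {w = 0}; local generators 1, 1, z, z -/
noncomputable def gF : Coc Y.U := sorry

theorem gF_01 {W : X.Opens} (h0 : W ≤ Y.U 0) (h1 : W ≤ Y.U 1) : Y.gF.v 0 1 h0 h1 = 1 := sorry
theorem gF_02 {W : X.Opens} (h0 : W ≤ Y.U 0) (h2 : W ≤ Y.U 2) :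
    Y.gF.v 0 2 h0 h2 = rO h0 (Y.x 0) := sorry
theorem gF_03 {W : X.Opens} (h0 : W ≤ Y.U 0) (h3 : W ≤ Y.U 3) :
    Y.gF.v 0 3 h0 h3 = rO h0 (Y.x 0) := sorry
theorem gF_12 {W : X.Opens} (h1 : W ≤ Y.U 1) (h2 : W ≤ Y.U 2) :
    Y.gF.v 1 2 h1 h2 = rO h1 (Y.x 1) := sorry
theorem gF_13 {W : X.Opens} (h1 : W ≤ Y.U 1) (h3 : W ≤ Y.U 3) :
    Y.gF.v 1 3 h1 h3 = rO h1 (Y.x 1) := sorry
theorem gF_23 {W : X.Opens} (h2 : W ≤ Y.U 2) (h3 : W ≤ Y.U 3) : Y.gF.v 2 3 h2 h3 = 1 := sorry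

/-- the group of twists: (n, m) is O(n C_inf + m f) -/
noncomputable def gg : Multiplicative (ℤ × ℤ) →* Coc Y.U where
  toFun a := Y.gC ^ a.toAdd.1 * Y.gF ^ a.toAdd.2
  map_one' := by simp
  map_mul' a b := by
    simp only [toAdd_mul, Prod.fst_add, Prod.snd_add, zpow_add]
    exact mul_mul_mul_comm (Y.gC ^ _) (Y.gC ^ _) (Y.gF ^ _) (Y.gF ^ _)

/-- C4: the section of O(C_inf) with divisor C_inf -/
theorem exists_sC : ∃ s : Sct Y.gC, s.c 0 = 1 ∧ s.c 1 = Y.y 1 ∧ s.c 2 = 1 ∧ s.c 3 = Y.y 3 := sorry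

/-- C5: the two sections of O(f) -/
theorem exists_sF : (∃ s : Sct Y.gF, s.c 0 = 1 ∧ s.c 1 = 1 ∧ s.c 2 = Y.x 2 ∧ s.c 3 = Y.x 3) ∧
    ∃ s : Sct Y.gF, s.c 0 = Y.x 0 ∧ s.c 1 = Y.x 1 ∧ s.c 2 = 1 ∧ s.c 3 = 1 := sorry

/-- C6: H = C_inf + f has four sections whose loci are the charts -/
theorem exists_sH (i : Fin 4) : ∃ s : Sct (Y.gC * Y.gF), s.locus = Y.U i := sorry

/-- C7: t a unit: four sections of 2 C_inf with affine loci covering X -/
theorem exists_s2C (ht : IsUnit t) : ∃ s : Fin 4 → Sct (Y.gC ^ (2 : ℤ)),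
    (∀ i, IsAffineOpen (s i).locus) ∧ ⨆ i, (s i).locus = ⊤ := sorry

/-- C8: t = 0: the section of O(C_inf - 2f) with divisor C = {p = q = 0} -/
theorem exists_s0 (ht : t = 0) : ∃ s : Sct (Y.gC * Y.gF ^ (-2 : ℤ)),
    s.c 0 = Y.y 0 ∧ s.c 1 = 1 ∧ s.c 2 = Y.y 2 ∧ s.c 3 = 1 := sorry

end YCharts

end

/-! ## File Tw/Congr.lean (owner helper34): congruent cocycles -/

section

variable {X : Scheme.{u}} {ι : Type u} {U : ι → X.Opens}

/-- L1: cocycles whose difference kills M give isomorphic twists of M -/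
theorem Coc.tw_congr {g h : Coc U} (M : X.Modules)
    (H : ∀ i j (W : X.Opens) (hi : W ≤ U i) (hj : W ≤ U j) (m : Γ(M, W)),
      g.v i j hi hj • m = h.v i j hi hj • m) :
    Nonempty ((Coc.tw g).obj M ≅ (Coc.tw h).obj M) := sorry

end

/-! ## File Tw/Koszul.lean (owner helper41) -/

section

variable {X : Scheme.{u}} {ι : Type u} {U : ι → X.Opens}

/-- L2: Koszul sequence of two sections without common zeros, one of them a unit on every
chart -/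
theorem Coc.koszul {g : Coc U} (hU : ⨆ i, U i = ⊤) (s t : Sct g)
    (H : ∀ i, IsUnit (s.c i) ∨ IsUnit (t.c i)) (M : X.Modules) :
    ∃ S : ShortComplex X.Modules, S.ShortExact ∧
      Nonempty (S.X₁ ≅ (Coc.tw (g ^ (-2 : ℤ))).obj M) ∧
      Nonempty (S.X₂ ≅ (Coc.tw (g ^ (-1 : ℤ))).obj M ⊞ (Coc.tw (g ^ (-1 : ℤ))).obj M) ∧
      Nonempty (S.X₃ ≅ M) := sorry

end

/-! ## File Tw/Divisor.lean (owner helper34) -/

section

variable {X : Scheme.{u}} {ι : Type u} {U : ι → X.Opens}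

/-- L3: the sequence 0 -> M(-D) -> M -> M|D -> 0 of a section s which acts injectively on M; the
quotient is killed by s -/
theorem Coc.divisor {g : Coc U} (hU : ⨆ i, U i = ⊤) (s : Sct g) (M : X.Modules)
    (H : ∀ i (W : X.Opens) (hi : W ≤ U i) (m : Γ(M, W)), rO hi (s.c i) • m = 0 → m = 0) :
    ∃ S : ShortComplex X.Modules, S.ShortExact ∧
      Nonempty (S.X₁ ≅ (Coc.tw (g ^ (-1 : ℤ))).obj M) ∧ Nonempty (S.X₂ ≅ M) ∧
      ∀ i (W : X.Opens) (hi : W ≤ U i) (m : Γ(S.X₃, W)), rO hi (s.c i) • m = 0 := sorry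

end

end Fdim
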